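import Pool.Agent.L0h19.QE.Stm

set_option autoImplicit false

/-!
# Project QE (helper19), module MID: the middle range of the frequencies
-/

namespace Pool.Agent.L0h65.QE

open Finset Filter Topology
open Pool.Agent.L0h87.LE (ee odds Inv MZ RHO)
open Pool.Agent.L0h19.QE

theorem exists_lower {α : Type} (T : Finset α) (g : α → ℝ) (h : ∀ p ∈ T, 0 < g p) :
    ∃ c : ℝ, 0 < c ∧ ∀ p ∈ T, c ≤ g p := by
  classical
  induction T using Finset.induction_on with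
  | empty => exact ⟨1, one_pos, by simp⟩
  | insert a s ha ih =>
    obtain ⟨c, hc, h1⟩ := ih fun p hp => h p (mem_insert_of_mem hp)
    refine ⟨min c (g a), lt_min hc (h a (mem_insert_self _ _)), fun p hp => ?_⟩
    rcases mem_insert.1 hp with rfl | hp
    · exact min_le_right _ _
    · exact (min_le_left _ _).trans (h1 p hp)

theorem t_MID : S_MID := by
  intro hRHO hTRA hBLK hINT hBES q f C hq hC hI ε hε
  have hC0 : 0 ≤ C := (abs_nonneg _).trans (hC 0)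
  obtain ⟨D, hD⟩ : ∃ D : ℝ, D = C + 1 := ⟨_, rfl⟩
  have hD0 : 0 < D := by rw [hD]; linarith
  have hfD : ∀ n, |f n| ≤ D := fun n => (hC n).trans (by rw [hD]; linarith)
  have hTR : Tra q f D := hTRA hBLK q f D hfD hI
  -- the number of frequencies
  obtain ⟨K, hK⟩ := exists_nat_gt (8 * D ^ 2 / ε ^ 2)
  have hK0 : (0 : ℝ) < K := lt_trans (by positivity) hK
  -- the ratio
  obtain ⟨η, hη⟩ : ∃ η : ℝ, η = min (1 / 2) (ε / (16 * D)) := ⟨_, rfl⟩
  have hη0 : 0 < η := by rw [hη]; exact lt_min (by norm_num) (by positivity)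
  have hη1 : η ≤ 1 / 2 := by rw [hη]; exact min_le_left _ _
  have hη2 : 4 * D * η ≤ ε / 4 := by
    have : η ≤ ε / (16 * D) := by rw [hη]; exact min_le_right _ _
    have h1 := mul_le_mul_of_nonneg_left this (by positivity : 0 ≤ 4 * D)
    have h2 : 4 * D * (ε / (16 * D)) = ε / 4 := by field_simp; ring
    linarith
  have hev : ∀ᶠ x : ℝ in 𝓝 1, ∀ l ∈ range K, |x ^ l - 1| < η := by
    refine (eventually_all_finset (range K)).2 fun l _ => ?_
    have h1 : Tendsto (fun x : ℝ => x ^ l - 1) (𝓝 1) (𝓝 (1 ^ l - 1)) :=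
      ((continuous_pow l).tendsto 1).sub_const 1
    rw [one_pow, sub_self] at h1
    have := (Metric.tendsto_nhds.1 h1) η hη0
    filter_upwards [this] with x hx
    rwa [Real.dist_eq, sub_zero] at hx
  obtain ⟨ζ, hζ, hζ'⟩ := Metric.eventually_nhds_iff.1 hev
  obtain ⟨a, k, hk, hr1, hr2⟩ := hRHO q (ζ / 2) hq (by positivity)
  obtain ⟨ρ, hρ⟩ : ∃ ρ : ℝ, ρ = (3 : ℝ) ^ (q * k) / 2 ^ a := ⟨_, rfl⟩
  rw [← hρ] at hr1 hr2
  have hρ0 : 0 < ρ := by rw [hρ]; positivity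
  have hpow : ∀ l ∈ range K, |ρ ^ l - 1| < η := hζ' (by rw [Real.dist_eq]; linarith)
  have hpl : ∀ l : ℕ, (3 : ℝ) ^ (q * k * l) / 2 ^ (a * l) = ρ ^ l := by
    intro l
    rw [hρ, div_pow, ← pow_mul, ← pow_mul]
  -- the differences of the frequencies
  have hne : ∀ p ∈ (range K ×ˢ range K).filter (fun p => p.1 ≠ p.2),
      0 < |(ρ ^ p.1) ^ 2 - (ρ ^ p.2) ^ 2| := by
    intro p hp
    rw [mem_filter] at hp
    rw [abs_pos, sub_ne_zero]
    intro h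
    have h1 : ρ ^ p.1 = ρ ^ p.2 := (pow_left_inj₀ (by positivity) (by positivity) two_ne_zero).1 h
    exact hp.2 (pow_right_injective₀ hρ0 hr2 h1)
  obtain ⟨d, hd, hdl⟩ := exists_lower _ _ hne
  have hup : ∀ l ∈ range K, ∀ l' ∈ range K, |(ρ ^ l) ^ 2 - (ρ ^ l') ^ 2| ≤ 4 := by
    intro l hl l' hl'
    have h1 := abs_lt.1 (hpow l hl)
    have h2 := abs_lt.1 (hpow l' hl')
    have h3 : 0 < ρ ^ l := by positivity
    have h4 : 0 < ρ ^ l' := by positivity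
    rw [abs_le]
    constructor <;> nlinarith
  -- the transfer
  have htr : ∀ l ∈ range K, ∃ c : ℝ, 0 < c ∧ ∃ N₀ : ℕ, ∀ N : ℕ, N₀ ≤ N → ∀ β : ℝ, |β| * N ≤ c →
      ‖S2 f N β - S2 f N (β * (ρ ^ l) ^ 2)‖ ≤ 3 * ε / 8 * N := by
    intro l hl
    have hh : (1 : ℝ) / 2 ≤ 3 ^ (q * k * l) / 2 ^ (a * l) := by
      rw [hpl]
      have := (abs_lt.1 (hpow l hl)).1
      linarith
    obtain ⟨c, hc, N₀, h1⟩ := hTR (a * l) (q * k * l) (Dvd.intro (k * l) (by ring)) hh (ε / 8)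
      (by positivity)
    refine ⟨c, hc, N₀, fun N hN β hβ => ?_⟩
    have h2 := h1 N hN β hβ
    rw [hpl] at h2
    refine h2.trans (mul_le_mul_of_nonneg_right ?_ (Nat.cast_nonneg N))
    have h3 : 4 * D * |ρ ^ l - 1| ≤ 4 * D * η :=
      mul_le_mul_of_nonneg_left (hpow l hl).le (by positivity)
    linarith
  choose! cc hcc NN hNN using htr
  obtain ⟨c₁, hc₁, hc₁l⟩ := exists_lower (range K) cc hcc
  -- the parameters
  obtain ⟨θ, hθ⟩ : ∃ θ : ℝ, θ = ε ^ 2 / (8 * D ^ 2) := ⟨_, rfl⟩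
  have hθ0 : 0 < θ := by rw [hθ]; positivity
  obtain ⟨δ, hδ⟩ : ∃ δ : ℝ, δ = min 1 (θ / 4) := ⟨_, rfl⟩
  have hδ0 : 0 < δ := by rw [hδ]; exact lt_min one_pos (by positivity)
  have hδ1 : δ ≤ 1 := by rw [hδ]; exact min_le_left _ _
  have hδ2 : δ ≤ θ / 4 := by rw [hδ]; exact min_le_right _ _
  obtain ⟨N₂, hN₂⟩ := exists_nat_gt (80 / θ)
  refine ⟨min c₁ (θ / 320), 8 / (δ * d * θ), lt_min hc₁ (by positivity), by positivity,
    max 1 (max N₂ ((range K).sup NN)), fun N hN β hβ1 hβ2 => ?_⟩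
  have hN1 : 1 ≤ N := (le_max_left _ _).trans hN
  have hN0' : (0 : ℝ) < N := by exact_mod_cast hN1
  have hN2 : N₂ ≤ N := ((le_max_left _ _).trans (le_max_right _ _)).trans hN
  have hN3 : (range K).sup NN ≤ N := ((le_max_right _ _).trans (le_max_right _ _)).trans hN
  have hN4 : 20 ≤ θ / 4 * N := by
    have h1 : 80 / θ < N := hN₂.trans_le (by exact_mod_cast hN2)
    rw [div_lt_iff₀ hθ0] at h1
    linarith
  have hβ0 : 0 < |β| := by
    have h1 : 0 < |β| * (N : ℝ) ^ 2 := lt_of_lt_of_le (by positivity) hβ1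
    exact (pos_iff_pos_of_mul_pos h1).2 (by positivity)
  have hβ3 : |β| * N ≤ θ / 320 := hβ2.trans (min_le_right _ _)
  -- each frequency
  have hl1 : ∀ l ∈ range K, ‖S2 f N β - S2 f N (β * (ρ ^ l) ^ 2)‖ ≤ 3 * ε / 8 * N := by
    intro l hl
    exact hNN l hl N ((Finset.le_sup hl).trans hN3) β
      ((hβ2.trans (min_le_left _ _)).trans (hc₁l l hl))
  -- Bessel
  have hb := hBES K N (fun l => β * (ρ ^ l) ^ 2) D (θ * N) f hD0.le (by positivity) hfD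
    (fun l hl l' hl' hll => by
      obtain ⟨γ, hγ⟩ : ∃ γ : ℝ, γ = β * (ρ ^ l) ^ 2 - β * (ρ ^ l') ^ 2 := ⟨_, rfl⟩
      have hγa : |γ| = |β| * |(ρ ^ l) ^ 2 - (ρ ^ l') ^ 2| := by
        rw [hγ, ← mul_sub, abs_mul]
      have h1 : d ≤ |(ρ ^ l) ^ 2 - (ρ ^ l') ^ 2| := hdl (l, l') (by
        rw [mem_filter, mem_product]
        exact ⟨⟨mem_range.2 hl, mem_range.2 hl'⟩, hll⟩)
      have h2 : |(ρ ^ l) ^ 2 - (ρ ^ l') ^ 2| ≤ 4 := hup l (mem_range.2 hl) l' (mem_range.2 hl')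
      have hγl : d * |β| ≤ |γ| := by
        rw [hγa, mul_comm d]
        exact mul_le_mul_of_nonneg_left h1 hβ0.le
      have hγu : |γ| ≤ 4 * |β| := by
        rw [hγa, mul_comm 4]
        exact mul_le_mul_of_nonneg_left h2 hβ0.le
      have hγ0 : 0 < |γ| := lt_of_lt_of_le (by positivity) hγl
      have h3 := hINT γ N δ (abs_pos.1 hγ0) hN1 hδ0 hδ1
      show ‖∑ n ∈ odds N, ee ((β * (ρ ^ l) ^ 2 - β * (ρ ^ l') ^ 2) * (n : ℝ) ^ 2)‖ ≤ θ * N
      rw [← hγ]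
      refine h3.trans ?_
      have h4 : δ * N ≤ θ / 4 * N := mul_le_mul_of_nonneg_right hδ2 hN0'.le
      have h5 : 2 / (δ * |γ| * N) ≤ θ / 4 * N := by
        rw [div_le_iff₀ (by positivity)]
        have h6 : 8 / (δ * d * θ) * (δ * d * θ) ≤ |β| * (N : ℝ) ^ 2 * (δ * d * θ) :=
          mul_le_mul_of_nonneg_right hβ1 (by positivity)
        have h7 : 8 / (δ * d * θ) * (δ * d * θ) = 8 := by field_simp
        rw [h7] at h6
        have h8 : δ * (d * |β|) * N * (θ / 4 * N) ≤ δ * |γ| * N * (θ / 4 * N) := by gcongr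
        have h9 : δ * (d * |β|) * N * (θ / 4 * N) = |β| * (N : ℝ) ^ 2 * (δ * d * θ) / 4 := by ring
        have h10 : θ / 4 * N * (δ * |γ| * N) = δ * |γ| * N * (θ / 4 * N) := by ring
        rw [h10]
        linarith
      have h6 : 20 * |γ| * (N : ℝ) ^ 2 ≤ θ / 4 * N := by
        have h7 : 20 * |γ| * (N : ℝ) ^ 2 ≤ 20 * (4 * |β|) * (N : ℝ) ^ 2 := by gcongr
        have h8 : 20 * (4 * |β|) * (N : ℝ) ^ 2 = 80 * (|β| * N) * N := by ring
        have h9 : 80 * (|β| * N) * N ≤ 80 * (θ / 320) * N := by gcongr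
        have h10 : 80 * (θ / 320) * N = θ / 4 * N := by ring
        linarith
      have h7 : θ * N = θ / 4 * N + θ / 4 * N + θ / 4 * N + θ / 4 * N := by ring
      linarith)
  -- the sum
  have hsum : (K : ℝ) * ‖S2 f N β‖ ≤ ‖∑ l ∈ range K, S2 f N (β * (ρ ^ l) ^ 2)‖ +
      K * (3 * ε / 8 * N) := by
    have e : (K : ℂ) * S2 f N β = ∑ l ∈ range K, S2 f N (β * (ρ ^ l) ^ 2) +
        ∑ l ∈ range K, (S2 f N β - S2 f N (β * (ρ ^ l) ^ 2)) := by
      rw [Finset.sum_sub_distrib, Finset.sum_const, card_range, nsmul_eq_mul]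
      ring
    have e2 : (K : ℝ) * ‖S2 f N β‖ = ‖(K : ℂ) * S2 f N β‖ := by
      rw [norm_mul, Complex.norm_natCast]
    rw [e2, e]
    refine (norm_add_le _ _).trans (add_le_add le_rfl ?_)
    refine (norm_sum_le _ _).trans ((Finset.sum_le_sum hl1).trans (le_of_eq ?_))
    rw [Finset.sum_const, card_range, nsmul_eq_mul]
  have hsq : ‖∑ l ∈ range K, S2 f N (β * (ρ ^ l) ^ 2)‖ ≤ K * (ε / 2 * N) := by
    refine abs_le_of_sq_le_sq' ?_ (by positivity) |>.2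
    refine hb.trans ?_
    have h6 : (1 : ℝ) ≤ K * (ε ^ 2 / (8 * D ^ 2)) := by
      have : 8 * D ^ 2 / ε ^ 2 * (ε ^ 2 / (8 * D ^ 2)) ≤ K * (ε ^ 2 / (8 * D ^ 2)) :=
        mul_le_mul_of_nonneg_right hK.le (by positivity)
      have e : 8 * D ^ 2 / ε ^ 2 * (ε ^ 2 / (8 * D ^ 2)) = 1 := by field_simp
      rwa [e] at this
    have h5 : (K : ℝ) * N ≤ K ^ 2 * (ε ^ 2 / (8 * D ^ 2)) * N := by
      calc (K : ℝ) * N = K * 1 * N := by ring
        _ ≤ K * (K * (ε ^ 2 / (8 * D ^ 2))) * N := by gcongr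
        _ = _ := by ring
    rw [hθ]
    calc D ^ 2 * N * (K * N + K ^ 2 * (ε ^ 2 / (8 * D ^ 2) * N)) ≤
        D ^ 2 * N * (K ^ 2 * (ε ^ 2 / (8 * D ^ 2)) * N + K ^ 2 * (ε ^ 2 / (8 * D ^ 2) * N)) := by
          gcongr
      _ = (K * (ε / 2 * N)) ^ 2 := by field_simp; ring
  have h7 : (K : ℝ) * ‖S2 f N β‖ ≤ K * (ε * N) := by
    refine (hsum.trans (add_le_add hsq le_rfl)).trans ?_
    have : 0 ≤ K * (ε * N) := by positivity
    have e : (K : ℝ) * (ε / 2 * N) + K * (3 * ε / 8 * N) = 7 / 8 * (K * (ε * N)) := by ring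
    rw [e]
    linarith
  exact le_of_mul_le_mul_left h7 hK0

end Pool.Agent.L0h65.QE
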